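import Pool.Agent.W2helper20.GC.Lw
import Pool.Agent.W2helper20.GC.Lv

/-!
# The Gauss circle problem: Brownian local structure of the error term at integer and prime radii

For `n` running over the integers of a short window, or over the primes, the error term `P` near
`n`, looked at on a scale `ρ` tending to `0`, recentred by an explicit drift and normalised by
`4 √(n ρ log (1/ρ))`, behaves as a standard two-sided Brownian motion, which is independent of
`P n / √n`.
-/

set_option autoImplicit false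

namespace Pool.Agent.Results.MP_fb29e9_nt.BrownianLocal

open MeasureTheory ProbabilityTheory Filter Topology

/-- the error term `F R - π R²` of the circle problem -/
noncomputable def P (R : ℝ) : ℝ :=
  (Nat.card {p : ℤ × ℤ // (p.1 : ℝ) ^ 2 + (p.2 : ℝ) ^ 2 ≤ R ^ 2} : ℝ) - Real.pi * R ^ 2

/-- the local process at `n` on the scale `ρ`: the increment `P (n + ρ s) - P n`, minus the drift
`(8√2/π) √(n ρ s⁺) log (1/ρ)`, divided by `4 √(n ρ log (1/ρ))` -/
noncomputable def Y (ρ s : ℝ) (n : ℕ) : ℝ :=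
  (P (n + ρ * s) - P n - 8 * √2 / Real.pi * √(n * ρ * max s 0) * Real.log (1 / ρ)) /
    (4 * √(n * ρ * Real.log (1 / ρ)))

/-- covariance matrix of standard two-sided Brownian motion at the times `s 0, …, s (k - 1)` -/
noncomputable def bmCov {k : ℕ} (s : Fin k → ℝ) : Matrix (Fin k) (Fin k) ℝ :=
  .of fun i j => (|s i| + |s j| - |s i - s j|) / 2

/-- joint law of standard two-sided Brownian motion at the times `s 0, …, s (k - 1)`: the centred
Gaussian measure with covariance matrix `bmCov s` -/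
noncomputable def bmLaw {k : ℕ} (s : Fin k → ℝ) : Measure (Fin k → ℝ) :=
  (multivariateGaussian 0 (bmCov s)).map (MeasurableEquiv.toLp 2 (Fin k → ℝ)).symm

/-- **Brownian local structure at integer and prime radii.** There is a probability measure `μ` on
`ℝ` such that:

* for all windows `(K N, K N + N]` with `(K N)^(1/2 + ε) ≤ N`, all scales `ρ N → 0+` with
  `log (1 / ρ N) = o(log N)` and all real times `s 0, …, s (k - 1)`, the joint law of
  `(P n / √n, Y (ρ N) (s 0) n, …, Y (ρ N) (s (k - 1)) n)`, `n` uniform in the window, tends weakly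
  to `μ ⊗ bmLaw s`;
* for all scales `ρ N → 0+` with `ρ N ≥ (log N)^(-A)` for some `A`, and all real times, the joint
  law of `(P p / √p, Y (ρ N) (s 0) p, …, Y (ρ N) (s (k - 1)) p)`, `p` uniform among the primes up
  to `N`, tends weakly to `μ ⊗ bmLaw s`. -/
theorem result : ∃ μ : ProbabilityMeasure ℝ,
    (∀ ε : ℝ, 0 < ε →
      ∀ K : ℕ → ℕ, (∀ᶠ N : ℕ in atTop, (K N : ℝ) ^ (1 / 2 + ε) ≤ N) →
      ∀ ρ : ℕ → ℝ, Tendsto ρ atTop (𝓝[>] 0) →
        Tendsto (fun N : ℕ => Real.log (1 / ρ N) / Real.log N) atTop (𝓝 0) →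
      ∀ (k : ℕ) (s : Fin k → ℝ), (bmCov s).PosSemidef ∧
        ∀ f : ℝ × (Fin k → ℝ) → ℝ, Continuous f → (∃ C : ℝ, ∀ x, |f x| ≤ C) →
          Tendsto (fun N : ℕ =>
            (∑ n ∈ Finset.Ioc (K N) (K N + N), f (P n / √n, fun i => Y (ρ N) (s i) n)) / N)
            atTop (𝓝 (∫ x, f x ∂((μ : Measure ℝ).prod (bmLaw s))))) ∧
    (∀ ρ : ℕ → ℝ, Tendsto ρ atTop (𝓝[>] 0) →
        ∀ A : ℕ, (∀ᶠ N : ℕ in atTop, 1 / Real.log N ^ A ≤ ρ N) →
      ∀ (k : ℕ) (s : Fin k → ℝ), (bmCov s).PosSemidef ∧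
        ∀ f : ℝ × (Fin k → ℝ) → ℝ, Continuous f → (∃ C : ℝ, ∀ x, |f x| ≤ C) →
          Tendsto (fun N : ℕ =>
            (∑ p ∈ (Finset.Icc 1 N).filter Nat.Prime, f (P p / √p, fun i => Y (ρ N) (s i) p)) /
              ((Finset.Icc 1 N).filter Nat.Prime).card)
            atTop (𝓝 (∫ x, f x ∂((μ : Measure ℝ).prod (bmLaw s))))) := by
  obtain ⟨μ, -, hμ⟩ := Pool.Agent.W2helper20.GC.exists_law
  refine ⟨μ, ?_, ?_⟩
  · intro ε hε K hK ρ hρ hlog k s
    refine ⟨Pool.Agent.W2helper20.GC.covB_psd s, ?_⟩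
    intro f hf hb
    obtain ⟨M, hM⟩ :=
      Pool.Agent.W2helper20.GC.app_win (K := K) (N := fun N => N) hρ tendsto_id hε hK hlog
    have h := Pool.Agent.W2helper20.GC.levy hM.adm.ne (μ := μ) s
      (fun t0 t => Pool.Agent.W2helper20.GC.joint_cf hM (hμ t0) t s) hf hb
    refine h.congr (fun N => ?_)
    rw [Nat.card_Ioc, show K N + N - K N = N by omega]
    rfl
  · intro ρ hρ A hA k s
    refine ⟨Pool.Agent.W2helper20.GC.covB_psd s, ?_⟩
    intro f hf hb
    obtain ⟨M, hM⟩ := Pool.Agent.W2helper20.GC.app_PR hρ A hA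
    exact Pool.Agent.W2helper20.GC.levy hM.adm.ne (μ := μ) s
      (fun t0 t => Pool.Agent.W2helper20.GC.joint_cf hM (hμ t0) t s) hf hb

end Pool.Agent.Results.MP_fb29e9_nt.BrownianLocal
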