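import Mathlib
import Pool.Agent.W2helper40.MX.Main

/-!
# The order of the records of the error term of the circle problem along lacunary sequences of radii

`P(R)` is the error term of the circle problem.  Let `a_n` be nondecreasing and not always `≤ 0`, `b_n > 0`,
`α₀ ≥ 0` and `R_n(α) = b_n α ^ (a_n)`, and suppose that for every `α > α₀` there are `c > 0` and `κ < 1` with
`R_{n+1}(α) ≥ (1 + c n ^ (-κ)) R_n(α)` for all large `n`.  Examples are the sequences `α q ^ n` (`q > 1`,
`α₀ = 0`), `α ^ n` and `α ^ (√n)` (`α₀ = 1`) and `α exp (n ^ δ)` (`δ > 0`, `α₀ = 0`).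

Then for almost all `α > α₀` the largest values of both signs have the exact order of magnitude
`L(N) = (log N) ^ (1/4) (log log N) ^ ((3/4) (2 ^ (1/3) - 1))`:
there are `0 < c ≤ C` with `c L(N) ≤ max_{n < N} ± P(R_n) / √R_n ≤ C L(N)` for both signs and all large `N`.

Proof.  Let `U_M` be the truncation at frequencies `≤ M²` of the trigonometric series of `P(R) / √R`, and
`y = log α` in a compact interval.

*Upper bound.*  The moments of order `2k` of `U_M`, `k` a small multiple of `log n`, are computed with van der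
Corput's lemma and with Liouville's inequality for sums of `2k` square roots; their diagonal part is bounded by
exponential moments.  These are products over squarefree `s` (the classes `s t²`), and the sum of
`min (x_s, x_s²)`, `x_s = l r(s) s ^ (-3/4)`, is at most `C l ^ (4/3) (log l) ^ (2 ^ (1/3) - 1)` by the
Hardy–Ramanujan inequality for integers composed of primes `≢ 3` modulo `4`.

*Lower bound.*  For `N = 2 ^ i` the sum of `w U_M`, `w` a Riesz product of length `≍ log N` over squarefree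
integers with many representations, over `N ^ ε` of the points `R_n`, is computed in mean square (the products of
two different terms have frequencies with different growth), and `w (E - U_M)` is small in mean.
-/

set_option autoImplicit false

open MeasureTheory Filter Topology Set

namespace Pool.Agent.Results.MP_fb29e9_nt.LacunaryRecords

/-- the error term of the circle problem -/
noncomputable def P (R : ℝ) : ℝ :=
  (Nat.card {p : ℤ × ℤ // (p.1 : ℝ) ^ 2 + (p.2 : ℝ) ^ 2 ≤ R ^ 2} : ℝ) - Real.pi * R ^ 2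

/-- the order of the records -/
noncomputable def L (N : ℕ) : ℝ :=
  (Real.log N) ^ (1 / 4 : ℝ) * (Real.log (Real.log N)) ^ ((3 / 4) * ((2 : ℝ) ^ (1 / 3 : ℝ) - 1))

theorem result (a b : ℕ → ℝ) (α₀ : ℝ) (hα₀ : 0 ≤ α₀) (hmono : Monotone a) (ha : ∃ n, 0 < a n)
    (hb : ∀ n, 0 < b n)
    (hgap : ∀ α : ℝ, α₀ < α → ∃ c κ : ℝ, 0 < c ∧ κ < 1 ∧ ∀ᶠ n : ℕ in atTop,
      (1 + c * (n : ℝ) ^ (-κ)) * (b n * α ^ (a n)) ≤ b (n + 1) * α ^ (a (n + 1))) :
    ∀ᵐ α : ℝ, α₀ < α → ∃ c C : ℝ, 0 < c ∧ 0 < C ∧ ∀ᶠ N : ℕ in atTop,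
      (∃ n < N, c * L N * √(b n * α ^ (a n)) ≤ P (b n * α ^ (a n))) ∧
      (∃ n < N, P (b n * α ^ (a n)) ≤ -(c * L N * √(b n * α ^ (a n)))) ∧
      ∀ n < N, |P (b n * α ^ (a n))| ≤ C * L N * √(b n * α ^ (a n)) := by
  have hL : ∀ N : ℕ, L N = Pool.Agent.W2helper40.MX.RS (Real.log N) := by
    intro N
    unfold L Pool.Agent.W2helper40.MX.RS Pool.Agent.W2helper40.MX.gam Pool.Agent.H452R2.Om.zz
    have h1 : (2:ℝ) ^ (4 / 3 : ℝ) / 2 = 2 ^ (1 / 3 : ℝ) := by
      nth_rewrite 2 [← Real.rpow_one (2:ℝ)]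
      rw [← Real.rpow_sub (by norm_num)]; norm_num
    rw [h1]
  filter_upwards [Pool.Agent.W2helper40.MX.main hα₀ ha hmono hb hgap] with α hα hα'
  obtain ⟨c, C, hc, hC, h⟩ := hα hα'
  refine ⟨c, C, hc, hC, ?_⟩
  have hα0 : 0 < α := lt_of_le_of_lt hα₀ hα'
  have hs : ∀ n, 0 < √(b n * α ^ (a n)) := fun n =>
    Real.sqrt_pos.2 (mul_pos (hb n) (Real.rpow_pos_of_pos hα0 _))
  have hP : ∀ n, P (b n * α ^ (a n)) = Pool.Agent.H383.Gauss.En (b n * α ^ (a n)) * √(b n * α ^ (a n)) := by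
    intro n
    have h1 : Pool.Agent.H383.Gauss.En (b n * α ^ (a n)) = P (b n * α ^ (a n)) / √(b n * α ^ (a n)) := rfl
    rw [h1, div_mul_cancel₀ _ (hs n).ne']
  filter_upwards [h] with N hN
  obtain ⟨⟨n1, h1, h1'⟩, ⟨n2, h2, h2'⟩, h3⟩ := hN
  rw [hL]
  refine ⟨⟨n1, h1, ?_⟩, ⟨n2, h2, ?_⟩, fun n hn => ?_⟩
  · rw [hP]
    exact mul_le_mul_of_nonneg_right h1' (hs n1).le
  · rw [hP, ← neg_mul]
    exact mul_le_mul_of_nonneg_right h2' (hs n2).le
  · rw [hP, abs_mul, abs_of_pos (hs n)]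
    exact mul_le_mul_of_nonneg_right (h3 n hn) (hs n).le

end Pool.Agent.Results.MP_fb29e9_nt.LacunaryRecords
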