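import Mathlib
import Pool.Agent.W2helper83.GZ.Fin

open MeasureTheory Filter Topology

namespace Pool.Agent.Results.MP_fb29e9_nt.LatticeCentres

/-- The normalised error term of the Gauss circle problem, as a function of `x = R²`. -/
noncomputable def E (x : ℝ) : ℝ :=
  ((Nat.card {p : ℤ × ℤ // (p.1 : ℝ) ^ 2 + (p.2 : ℝ) ^ 2 ≤ x} : ℝ) - Real.pi * x) / x ^ (1 / 4 : ℝ)

/-- `r(m)`, the number of representations of `m` as a sum of two squares. -/
noncomputable def r (m : ℕ) : ℕ := Nat.card {p : ℤ × ℤ // p.1 ^ 2 + p.2 ^ 2 = (m : ℤ)}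

/-- The lattice points `z ≠ 0` with `|z|² ≤ N`. -/
noncomputable def pts (N : ℕ) : Finset (ℤ × ℤ) :=
  (Finset.Icc (-(N : ℤ)) N ×ˢ Finset.Icc (-(N : ℤ)) N).filter
    (fun z => 0 < z.1 ^ 2 + z.2 ^ 2 ∧ z.1 ^ 2 + z.2 ^ 2 ≤ (N : ℤ))

/-- The direction `z/|z|`, as a complex number. -/
noncomputable def dir (z : ℤ × ℤ) : ℂ :=
  ((z.1 : ℂ) + (z.2 : ℂ) * Complex.I) / ((√((z.1 : ℝ) ^ 2 + (z.2 : ℝ) ^ 2) : ℝ) : ℂ)

/-- The error term of the circle with centre `a` which passes through `z`. -/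
noncomputable def Ea (a z : ℤ × ℤ) : ℝ := E (((z.1 : ℝ) - a.1) ^ 2 + ((z.2 : ℝ) - a.2) ^ 2)

/-- The uniform distribution on the unit circle of `ℂ`. -/
noncomputable def unif : Measure ℂ :=
  ENNReal.ofReal (1 / (2 * Real.pi)) •
    (volume.restrict (Set.Ioc (-Real.pi) Real.pi)).map (fun t : ℝ => Complex.exp (t * Complex.I))

open Classical in
/-- The error term of the Gauss circle problem for circles through a random lattice point. There is a probability
law `ν` on `ℝ`, with a density that extends to an entire function and charging every interval, which is the limit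
law of `E(n)`, `n = 1, 2, …`, and for every list of lattice points `a_1, …, a_k` there is a joint limit law `μ` of
the direction `z/|z|` and of the error terms `E(|z - a_1|²), …, E(|z - a_k|²)` of the circles about `a_1, …, a_k`
which pass through `z`, when `z` runs through the lattice points of the plane. For each `i` the direction and the
error term are independent, uniform on the circle and with the law `ν`; the covariances of two error terms, given
the direction, are explicit. -/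
theorem result :
    ∃ (ν : ProbabilityMeasure ℝ) (G : ℂ → ℂ),
      Differentiable ℂ G ∧ (∀ x : ℝ, 0 ≤ (G x).re ∧ (G x).im = 0) ∧
      (ν : Measure ℝ) = volume.withDensity (fun x : ℝ => ENNReal.ofReal (G x).re) ∧
      (∀ u v : ℝ, u < v → 0 < (ν : Measure ℝ) (Set.Ioo u v)) ∧
      (∀ f : ℝ → ℝ, Continuous f → (∃ C : ℝ, ∀ x : ℝ, |f x| ≤ C * (1 + x ^ 2)) →
        Tendsto (fun N : ℕ => (∑ n ∈ Finset.Icc 1 N, f (E n)) / (N : ℝ)) atTop (𝓝 (∫ x, f x ∂(ν : Measure ℝ)))) ∧
      ∀ (k : ℕ) (a : Fin k → ℤ × ℤ), ∃ μ : ProbabilityMeasure (ℂ × (Fin k → ℝ)),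
        Integrable (fun x : ℂ × (Fin k → ℝ) => ∑ i, x.2 i ^ 2) (μ : Measure (ℂ × (Fin k → ℝ))) ∧
        (∀ i, (μ : Measure (ℂ × (Fin k → ℝ))).map (fun x => (x.1, x.2 i)) = unif.prod (ν : Measure ℝ)) ∧
        (∀ g : ℂ → ℝ, Continuous g → ∀ i j,
          Summable (fun m : ℕ => (r m : ℝ) ^ 2 / (m : ℝ) ^ (3 / 2 : ℝ) *
            ∫ t in (-Real.pi)..Real.pi, g (Complex.exp (t * Complex.I)) *
              Real.cos (2 * Real.pi * √(m : ℝ) * (((a i).1 - (a j).1) * Real.cos t + ((a i).2 - (a j).2) * Real.sin t))) ∧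
          ∫ x, g x.1 * x.2 i * x.2 j ∂(μ : Measure (ℂ × (Fin k → ℝ))) =
            (∑' m : ℕ, (r m : ℝ) ^ 2 / (m : ℝ) ^ (3 / 2 : ℝ) *
              ∫ t in (-Real.pi)..Real.pi, g (Complex.exp (t * Complex.I)) *
                Real.cos (2 * Real.pi * √(m : ℝ) * (((a i).1 - (a j).1) * Real.cos t + ((a i).2 - (a j).2) * Real.sin t))) /
              (4 * Real.pi ^ 3)) ∧
        (∀ f : ℂ × (Fin k → ℝ) → ℝ, Continuous f → (∃ C : ℝ, ∀ x, |f x| ≤ C * (1 + ∑ i, x.2 i ^ 2)) →
          Tendsto (fun N : ℕ => (∑ z ∈ pts N, f (dir z, fun i => Ea (a i) z)) / ((pts N).card : ℝ)) atTop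
            (𝓝 (∫ x, f x ∂(μ : Measure (ℂ × (Fin k → ℝ)))))) ∧
        (∀ D : Set (ℂ × (Fin k → ℝ)), (μ : Measure (ℂ × (Fin k → ℝ))) (frontier D) = 0 →
          Tendsto (fun N : ℕ => (((pts N).filter (fun z => (dir z, fun i => Ea (a i) z) ∈ D)).card : ℝ) / ((pts N).card : ℝ))
            atTop (𝓝 ((μ : Measure (ℂ × (Fin k → ℝ))).real D))) := by
  obtain ⟨ν, G, g1, g2, g3, g4, g5⟩ := Pool.Agent.W2helper83.GZ.nu_exists
  refine ⟨ν, G, g1, g2, g3, g4, g5, ?_⟩
  intro k a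
  obtain ⟨μ, m1, m2, m3, m4⟩ := Pool.Agent.W2helper83.GZ.joint a (ν := ν)
    (fun F hF hB => Pool.Agent.W2helper83.GZ.nu_SI g5 F hF hB)
  have hpts : ∀ N, pts N = Pool.Agent.W2helper83.GZ.disc N := fun N => (Pool.Agent.W2helper83.GZ.disc_eq N).symm
  have hst : ∀ z : ℤ × ℤ, (dir z, fun i => Ea (a i) z) =
      (Pool.Agent.W2helper83.GZ.dir z, fun i => Pool.Agent.H383.Gauss.En √(Pool.Agent.W2helper83.GZ.nm (z - a i) : ℝ)) := by
    intro z
    rw [Pool.Agent.W2helper83.GZ.dir_eq]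
    simp only [Pool.Agent.W2helper83.GZ.En_eq]
    rfl
  refine ⟨μ, m1, m4, ?_, ?_, ?_⟩
  · intro g hg i j
    obtain ⟨c1, c2⟩ := Pool.Agent.W2helper83.GZ.cov a m2 m4 hg i j
    have hT : ∀ m, Pool.Agent.W2helper83.GZ.TC g (a i - a j) m = (r m : ℝ) ^ 2 / (m : ℝ) ^ (3 / 2 : ℝ) *
        (∫ t in (-Real.pi)..Real.pi, g (Complex.exp (t * Complex.I)) *
          Real.cos (2 * Real.pi * √(m : ℝ) * (((a i).1 - (a j).1) * Real.cos t + ((a i).2 - (a j).2) * Real.sin t))) / (4 * Real.pi ^ 3) := by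
      intro m
      rw [Pool.Agent.W2helper83.GZ.TC_eq g (a i - a j) r (fun _ => rfl) m]
      simp only [Prod.fst_sub, Prod.snd_sub, Int.cast_sub]
    have hpi : (4 * Real.pi ^ 3 : ℝ) ≠ 0 := by
      have := Real.pi_pos
      positivity
    constructor
    · have h1 := c1.mul_right (4 * Real.pi ^ 3)
      refine h1.congr (fun m => ?_)
      rw [hT, div_mul_cancel₀ _ hpi]
    · rw [c2, ← tsum_div_const]
      exact tsum_congr hT
  · intro f hf hC
    have h1 := Pool.Agent.W2helper83.GZ.to_disc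
      (F := fun z => f (Pool.Agent.W2helper83.GZ.dir z, fun i => Pool.Agent.H383.Gauss.En √(Pool.Agent.W2helper83.GZ.nm (z - a i) : ℝ)))
      (m2 f hf hC)
    refine h1.congr (fun N => ?_)
    rw [hpts]
    congr 1
    exact Finset.sum_congr rfl (fun z _ => by rw [hst])
  · intro D hD
    have h1 := Pool.Agent.W2helper83.GZ.to_disc
      (F := fun z => if (Pool.Agent.W2helper83.GZ.dir z, fun i => Pool.Agent.H383.Gauss.En √(Pool.Agent.W2helper83.GZ.nm (z - a i) : ℝ)) ∈ D then (1:ℝ) else 0)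
      (m3 D hD)
    refine h1.congr (fun N => ?_)
    rw [hpts, Finset.card_filter]
    push_cast
    congr 1
    exact Finset.sum_congr rfl (fun z _ => by rw [hst])

end Pool.Agent.Results.MP_fb29e9_nt.LatticeCentres
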