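import Mathlib
import Pool.Agent.W2helper83.LF.Fin

open MeasureTheory Filter Topology

namespace Pool.Agent.Results.MP_fb29e9_nt.LinearForms

/-- The normalised error term of the Gauss circle problem, as a function of `x = R²`. -/
noncomputable def E (x : ℝ) : ℝ :=
  ((Nat.card {p : ℤ × ℤ // (p.1 : ℝ) ^ 2 + (p.2 : ℝ) ^ 2 ≤ x} : ℝ) - Real.pi * x) / x ^ (1 / 4 : ℝ)

/-- The lattice points `z ≠ 0` with `|z|² ≤ N`. -/
noncomputable def pts (N : ℕ) : Finset (ℤ × ℤ) :=
  (Finset.Icc (-(N : ℤ)) N ×ˢ Finset.Icc (-(N : ℤ)) N).filter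
    (fun z => 0 < z.1 ^ 2 + z.2 ^ 2 ∧ z.1 ^ 2 + z.2 ^ 2 ≤ (N : ℤ))

/-- The direction of the vector `(x, y)`, as a complex number. -/
noncomputable def dir (x y : ℝ) : ℂ := ((x : ℂ) + (y : ℂ) * Complex.I) / ((√(x ^ 2 + y ^ 2) : ℝ) : ℂ)

variable {k m : ℕ}

/-- The value at `z` of the linear form with coefficients `c` and constant term `a`. -/
def form (c : Fin k → ℤ) (a : ℤ × ℤ) (z : Fin k → ℤ × ℤ) : ℤ × ℤ := ∑ i, c i • z i + a

/-- The directions of the values of the linear forms and the error terms of the circles with these radii. -/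
noncomputable def stat (c : Fin m → Fin k → ℤ) (a : Fin m → ℤ × ℤ) (z : Fin k → ℤ × ℤ) : (Fin m → ℂ) × (Fin m → ℝ) :=
  (fun p => dir (form (c p) (a p) z).1 (form (c p) (a p) z).2,
    fun p => E (((form (c p) (a p) z).1 : ℝ) ^ 2 + ((form (c p) (a p) z).2 : ℝ) ^ 2))

/-- The distribution of the directions of the linear forms (without constant terms) at `k` independent
uniform random points of the unit disc. -/
noncomputable def shape (c : Fin m → Fin k → ℤ) : Measure (Fin m → ℂ) :=
  ENNReal.ofReal (1 / Real.pi ^ k) •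
    (volume.restrict {y : Fin k → ℝ × ℝ | ∀ i, (y i).1 ^ 2 + (y i).2 ^ 2 < 1}).map
      (fun y p => dir (∑ i, (c p i : ℝ) * (y i).1) (∑ i, (c p i : ℝ) * (y i).2))

open Classical in
/-- The error terms of the Gauss circle problem at the values of linear forms in random lattice points. There is a
probability law `ν` on `ℝ`, with a density that extends to an entire function and charging every interval, which is
the limit law of `E(n)`, `n = 1, 2, …`, and such that for all integer linear forms `L_1, …, L_m` in `k` lattice points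
(with lattice points as constant terms) whose coefficient vectors are nonzero and pairwise not proportional, the
following holds. If `z_1, …, z_k` are independent uniform random lattice points of the disc `0 < |z|² ≤ N`, then, as
`N → ∞`, the error terms `E(|L_1(z)|²), …, E(|L_m(z)|²)` are asymptotically independent, each with the law `ν`, and
independent of the directions of `L_1(z), …, L_m(z)`, which converge to their natural law. -/
theorem result :
    ∃ (ν : ProbabilityMeasure ℝ) (G : ℂ → ℂ),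
      Differentiable ℂ G ∧ (∀ x : ℝ, 0 ≤ (G x).re ∧ (G x).im = 0) ∧
      (ν : Measure ℝ) = volume.withDensity (fun x : ℝ => ENNReal.ofReal (G x).re) ∧
      (∀ u v : ℝ, u < v → 0 < (ν : Measure ℝ) (Set.Ioo u v)) ∧
      (∀ f : ℝ → ℝ, Continuous f → (∃ C : ℝ, ∀ x : ℝ, |f x| ≤ C * (1 + x ^ 2)) →
        Tendsto (fun N : ℕ => (∑ n ∈ Finset.Icc 1 N, f (E n)) / (N : ℝ)) atTop (𝓝 (∫ x, f x ∂(ν : Measure ℝ)))) ∧
      ∀ (k m : ℕ) (c : Fin m → Fin k → ℤ) (a : Fin m → ℤ × ℤ), (∀ p, c p ≠ 0) →
        (∀ p q, p ≠ q → ∀ s t : ℤ, s • c p = t • c q → s = 0 ∧ t = 0) →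
        IsProbabilityMeasure (shape c) ∧
        (∀ f : (Fin m → ℂ) × (Fin m → ℝ) → ℝ, Continuous f → (∃ C : ℝ, ∀ x, |f x| ≤ C * (1 + ∑ i, x.2 i ^ 2)) →
          Tendsto (fun N : ℕ => (∑ z ∈ Fintype.piFinset (fun _ : Fin k => pts N), f (stat c a z)) / ((pts N).card : ℝ) ^ k)
            atTop (𝓝 (∫ x, f x ∂((shape c).prod (Measure.pi fun _ : Fin m => (ν : Measure ℝ)))))) ∧
        (∀ D : Set ((Fin m → ℂ) × (Fin m → ℝ)),
          ((shape c).prod (Measure.pi fun _ : Fin m => (ν : Measure ℝ))) (frontier D) = 0 →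
          Tendsto (fun N : ℕ => (((Fintype.piFinset (fun _ : Fin k => pts N)).filter (fun z => stat c a z ∈ D)).card : ℝ) /
            ((pts N).card : ℝ) ^ k)
            atTop (𝓝 (((shape c).prod (Measure.pi fun _ : Fin m => (ν : Measure ℝ))).real D))) := by
  obtain ⟨ν, G, g1, g2, g3, g4, g5⟩ := Pool.Agent.W2helper83.GZ.nu_exists
  refine ⟨ν, G, g1, g2, g3, g4, g5, ?_⟩
  intro k m c a hc1 hc2
  have hpts : ∀ N, pts N = Pool.Agent.W2helper83.GZ.disc N := fun N => (Pool.Agent.W2helper83.GZ.disc_eq N).symm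
  have hpt2 : ∀ N, Fintype.piFinset (fun _ : Fin k => pts N) = Pool.Agent.W2helper83.LF.discs k N := by
    intro N
    unfold Pool.Agent.W2helper83.LF.discs
    simp only [hpts]
  have hst : ∀ z : Fin k → ℤ × ℤ, stat c a z =
      (Pool.Agent.W2helper83.LF.dirs c a z, Pool.Agent.W2helper83.LF.ers c a z) := by
    intro z
    unfold stat Pool.Agent.W2helper83.LF.dirs Pool.Agent.W2helper83.LF.ers
    simp only [Pool.Agent.W2helper83.GZ.dir_eq, Pool.Agent.W2helper83.LF.En_eq1]
    rfl
  have hsh : shape c = Pool.Agent.W2helper83.LF.shp c := by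
    have h1 : (fun (y : Fin k → ℝ × ℝ) (p : Fin m) => dir (∑ i, (c p i : ℝ) * (y i).1) (∑ i, (c p i : ℝ) * (y i).2)) =
        Pool.Agent.W2helper83.LF.drs c := by
      funext y p
      unfold Pool.Agent.W2helper83.LF.drs Pool.Agent.W2helper83.GZ.dr dir
      rw [Pool.Agent.W2helper83.LF.linR_fst, Pool.Agent.W2helper83.LF.linR_snd]
    unfold shape
    rw [h1]
    rfl
  rw [hsh]
  obtain ⟨j1, j2⟩ := Pool.Agent.W2helper83.LF.jointL (c := c) ⟨hc1, hc2⟩ a (ν := ν)
    (fun F hF hB => Pool.Agent.W2helper83.GZ.nu_SI g5 F hF hB)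
  refine ⟨Pool.Agent.W2helper83.LF.shp_prob c, ?_, ?_⟩
  · intro f hf hC
    have h1 := Pool.Agent.W2helper83.LF.to_discs
      (F := fun z => f (Pool.Agent.W2helper83.LF.dirs c a z, Pool.Agent.W2helper83.LF.ers c a z)) (j1 f hf hC)
    refine h1.congr (fun N => ?_)
    rw [hpt2, hpts]
    congr 1
    exact Finset.sum_congr rfl (fun z _ => by rw [hst])
  · intro D hD
    have h1 := Pool.Agent.W2helper83.LF.to_discs
      (F := fun z => if (Pool.Agent.W2helper83.LF.dirs c a z, Pool.Agent.W2helper83.LF.ers c a z) ∈ D then (1:ℝ) else 0)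
      (j2 D hD)
    refine h1.congr (fun N => ?_)
    rw [hpt2, hpts, Finset.card_filter]
    push_cast
    congr 1
    exact Finset.sum_congr rfl (fun z _ => by rw [hst])

end Pool.Agent.Results.MP_fb29e9_nt.LinearForms
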